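import Pool.Agent.Lib.MP_6bc78b_nt.MS.QZ.Iface3

/-! Project MS, Part QZ, module CHF: from moments to characteristic functions. -/

set_option autoImplicit false

open Complex Filter Topology

namespace Pool.Agent.Lib.MP_6bc78b_nt.MS.QZ.H15

open Pool.Agent.Lib.MP_6bc78b_nt.MS.QZ

/-- The Taylor polynomial of `exp (I u)`. -/
noncomputable def tp (n : ℕ) (u : ℝ) : ℂ := ∑ m ∈ Finset.range n, ((u : ℂ) * I) ^ m / (m.factorial : ℂ)

lemma hasDerivAt_tp (n : ℕ) (u : ℝ) : HasDerivAt (tp (n + 1)) (I * tp n u) u := by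
  unfold tp
  have h1 : ∀ m ∈ Finset.range (n + 1), HasDerivAt (fun u : ℝ => ((u : ℂ) * I) ^ m / (m.factorial : ℂ))
      ((m : ℂ) * ((u : ℂ) * I) ^ (m - 1) * I / (m.factorial : ℂ)) u := by
    intro m _
    have h2 : HasDerivAt (fun u : ℝ => (u : ℂ) * I) (1 * I) u :=
      (Complex.ofRealCLM.hasDerivAt (x := u)).mul_const I
    have h3 := (h2.pow m).div_const (m.factorial : ℂ)
    simpa using h3
  have h4 := HasDerivAt.fun_sum h1
  have e : (∑ m ∈ Finset.range (n + 1), (m : ℂ) * ((u : ℂ) * I) ^ (m - 1) * I / (m.factorial : ℂ)) =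
      I * ∑ m ∈ Finset.range n, ((u : ℂ) * I) ^ m / (m.factorial : ℂ) := by
    rw [Finset.sum_range_succ' (fun m => (m : ℂ) * ((u : ℂ) * I) ^ (m - 1) * I / (m.factorial : ℂ)) n,
      Finset.mul_sum]
    simp only [Nat.cast_zero, zero_mul, zero_div, add_zero, Nat.add_sub_cancel]
    refine Finset.sum_congr rfl fun m _ => ?_
    rw [Nat.factorial_succ]
    push_cast
    have h5 : (m.factorial : ℂ) ≠ 0 := by exact_mod_cast m.factorial_ne_zero
    have h6 : ((m : ℂ) + 1) ≠ 0 := by exact_mod_cast Nat.succ_ne_zero m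
    field_simp
  rw [e] at h4
  exact h4

lemma hasDerivAt_ex (u : ℝ) : HasDerivAt (fun u : ℝ => Complex.exp ((u : ℂ) * I))
    (I * Complex.exp ((u : ℂ) * I)) u := by
  have h2 : HasDerivAt (fun u : ℝ => (u : ℂ) * I) (1 * I) u :=
    (Complex.ofRealCLM.hasDerivAt (x := u)).mul_const I
  have h3 := h2.cexp
  convert h3 using 1
  ring

lemma bound_pos (n : ℕ) : ∀ u : ℝ, 0 ≤ u →
    ‖Complex.exp ((u : ℂ) * I) - tp n u‖ ≤ u ^ n / (n.factorial : ℝ) := by
  induction n with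
  | zero =>
    intro u _
    simp [tp, Complex.norm_exp_ofReal_mul_I]
  | succ n ih =>
    intro u hu
    have h1 : ∀ x ∈ Set.Icc (0 : ℝ) u, HasDerivWithinAt
        (fun u : ℝ => Complex.exp ((u : ℂ) * I) - tp (n + 1) u)
        (I * (Complex.exp ((x : ℂ) * I) - tp n x)) (Set.Ici x) x := by
      intro x _
      have h2 := (hasDerivAt_ex x).sub (hasDerivAt_tp n x)
      have h3 : I * Complex.exp ((x : ℂ) * I) - I * tp n x =
        I * (Complex.exp ((x : ℂ) * I) - tp n x) := by ring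
      rw [h3] at h2
      exact h2.hasDerivWithinAt
    have hB : ∀ x : ℝ, HasDerivAt (fun x : ℝ => x ^ (n + 1) / ((n + 1).factorial : ℝ))
        (x ^ n / (n.factorial : ℝ)) x := by
      intro x
      have h3 := (hasDerivAt_pow (n + 1) x).div_const ((n + 1).factorial : ℝ)
      have e : (((n + 1 : ℕ) : ℝ) * x ^ (n + 1 - 1)) / ((n + 1).factorial : ℝ) =
          x ^ n / (n.factorial : ℝ) := by
        rw [Nat.factorial_succ]
        push_cast
        have h5 : (n.factorial : ℝ) ≠ 0 := by exact_mod_cast n.factorial_ne_zero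
        have h6 : ((n : ℝ) + 1) ≠ 0 := by exact_mod_cast Nat.succ_ne_zero n
        field_simp
      rw [e] at h3
      exact h3
    have h4 := image_norm_le_of_norm_deriv_right_le_deriv_boundary
      (f := fun u : ℝ => Complex.exp ((u : ℂ) * I) - tp (n + 1) u)
      (f' := fun x => I * (Complex.exp ((x : ℂ) * I) - tp n x))
      (a := 0) (b := u) (B := fun x : ℝ => x ^ (n + 1) / ((n + 1).factorial : ℝ))
      (B' := fun x : ℝ => x ^ n / (n.factorial : ℝ))
      (fun x hx => ((hasDerivAt_ex x).sub (hasDerivAt_tp n x)).continuousAt.continuousWithinAt)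
      (fun x hx => h1 x (Set.Ico_subset_Icc_self hx))
      (by
        simp only [Complex.ofReal_zero, zero_mul, Complex.exp_zero]
        have : tp (n + 1) 0 = 1 := by
          unfold tp
          rw [Finset.sum_range_succ']
          simp
        rw [this]; simp)
      (hB)
      (fun x hx => by
        rw [norm_mul, Complex.norm_I, one_mul]
        exact ih x hx.1)
    exact h4 (Set.right_mem_Icc.2 hu)

lemma conj_tp (n : ℕ) (u : ℝ) : (starRingEnd ℂ) (tp n u) = tp n (-u) := by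
  unfold tp
  rw [map_sum]
  refine Finset.sum_congr rfl fun m _ => ?_
  simp [map_div₀, map_pow]

lemma bound (n : ℕ) (u : ℝ) :
    ‖Complex.exp ((u : ℂ) * I) - tp n u‖ ≤ |u| ^ n / (n.factorial : ℝ) := by
  rcases le_total 0 u with h | h
  · rw [abs_of_nonneg h]; exact bound_pos n u h
  · rw [abs_of_nonpos h]
    have h1 := bound_pos n (-u) (by linarith)
    rw [← RCLike.norm_conj, map_sub, ← Complex.exp_conj, conj_tp]
    simpa using h1

lemma sum_pairs (h : ℕ → ℂ) (K : ℕ) :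
    ∑ m ∈ Finset.range (2 * K), h m = ∑ j ∈ Finset.range K, (h (2 * j) + h (2 * j + 1)) := by
  induction K with
  | zero => simp
  | succ K ih =>
    rw [show 2 * (K + 1) = 2 * K + 1 + 1 by ring, Finset.sum_range_succ, Finset.sum_range_succ, ih,
      Finset.sum_range_succ]
    ring

lemma gm_even (j : ℕ) : gm (2 * j) = ((2 * j).factorial : ℝ) / (2 ^ j * (j.factorial : ℝ)) := by
  unfold gm
  rw [if_pos (even_two_mul j)]
  simp

lemma gm_odd (j : ℕ) : gm (2 * j + 1) = 0 := by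
  unfold gm
  rw [if_neg]
  simp

/-- Module CHF. -/
theorem chf : ChfStatement := by
  intro s w f hw hm t
  rw [Metric.tendsto_atTop]
  intro ε hε
  -- the tail
  have ht1 : Tendsto (fun K : ℕ => (t ^ 2 / 2) ^ K / (K.factorial : ℝ)) atTop (𝓝 0) :=
    FloorSemiring.tendsto_pow_div_factorial_atTop _
  have ht2 : Tendsto (fun K : ℕ => ∑ j ∈ Finset.range K, (-((t : ℂ) ^ 2 / 2)) ^ j / (j.factorial : ℂ))
      atTop (𝓝 (Complex.exp (((-(t ^ 2 / 2) : ℝ) : ℂ)))) := by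
    have h1 := NormedSpace.expSeries_div_hasSum_exp (-((t : ℂ) ^ 2 / 2))
    have h2 := h1.tendsto_sum_nat
    rw [← Complex.exp_eq_exp_ℂ] at h2
    have h3 : (((-(t ^ 2 / 2) : ℝ) : ℂ)) = -((t : ℂ) ^ 2 / 2) := by push_cast; ring
    rw [h3]
    exact h2
  obtain ⟨K1, hK1⟩ := (Metric.tendsto_atTop.1 ht1) (ε / 4) (by linarith)
  obtain ⟨K2, hK2⟩ := (Metric.tendsto_atTop.1 ht2) (ε / 4) (by linarith)
  set K := max K1 K2 with hK
  have e1 : (t ^ 2 / 2) ^ K / (K.factorial : ℝ) < ε / 4 := by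
    have h := hK1 K (le_max_left _ _)
    rw [Real.dist_eq, sub_zero] at h
    exact lt_of_le_of_lt (le_abs_self _) h
  have e2 := hK2 K (le_max_right _ _)
  -- the limit of the polynomial part
  have hp : Tendsto (fun n => ∑ m ∈ Finset.range (2 * K), ((t : ℂ) * I) ^ m / (m.factorial : ℂ) *
      ((∑ γ ∈ s n, w n γ * f n γ ^ m : ℝ) : ℂ)) atTop
      (𝓝 (∑ m ∈ Finset.range (2 * K), ((t : ℂ) * I) ^ m / (m.factorial : ℂ) * ((gm m : ℝ) : ℂ))) := by
    refine tendsto_finsetSum _ fun m _ => ?_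
    exact ((Complex.continuous_ofReal.tendsto _).comp (hm m)).const_mul _
  have hlim : (∑ m ∈ Finset.range (2 * K), ((t : ℂ) * I) ^ m / (m.factorial : ℂ) * ((gm m : ℝ) : ℂ)) =
      ∑ j ∈ Finset.range K, (-((t : ℂ) ^ 2 / 2)) ^ j / (j.factorial : ℂ) := by
    rw [sum_pairs]
    refine Finset.sum_congr rfl fun j _ => ?_
    rw [gm_even, gm_odd]
    push_cast
    have h5 : (j.factorial : ℂ) ≠ 0 := by exact_mod_cast j.factorial_ne_zero
    have h6 : ((2 * j).factorial : ℂ) ≠ 0 := by exact_mod_cast (2 * j).factorial_ne_zero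
    have h7 : ((t : ℂ) * I) ^ (2 * j) = (-((t : ℂ) ^ 2)) ^ j := by
      rw [pow_mul, mul_pow, Complex.I_sq]; ring
    rw [h7, mul_zero, add_zero]
    have h8 : (-((t : ℂ) ^ 2)) ^ j = (-((t : ℂ) ^ 2 / 2)) ^ j * 2 ^ j := by
      rw [← mul_pow]; congr 1; ring
    rw [h8]
    field_simp
  rw [hlim] at hp
  obtain ⟨N1, hN1⟩ := (Metric.tendsto_atTop.1 hp) (ε / 4) (by linarith)
  -- the error term
  have hq : Tendsto (fun n => t ^ (2 * K) / ((2 * K).factorial : ℝ) *
      (∑ γ ∈ s n, w n γ * f n γ ^ (2 * K))) atTop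
      (𝓝 (t ^ (2 * K) / ((2 * K).factorial : ℝ) * gm (2 * K))) := (hm (2 * K)).const_mul _
  have hq1 : t ^ (2 * K) / ((2 * K).factorial : ℝ) * gm (2 * K) =
      (t ^ 2 / 2) ^ K / (K.factorial : ℝ) := by
    rw [gm_even]
    have h5 : (K.factorial : ℝ) ≠ 0 := by exact_mod_cast K.factorial_ne_zero
    have h6 : ((2 * K).factorial : ℝ) ≠ 0 := by exact_mod_cast (2 * K).factorial_ne_zero
    rw [pow_mul, div_pow]
    field_simp
  rw [hq1] at hq
  have hq2 := hq.eventually (gt_mem_nhds e1)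
  obtain ⟨N2, hN2⟩ := eventually_atTop.1 hq2
  refine ⟨max N1 N2, fun n hn => ?_⟩
  have a1 := hN1 n (le_trans (le_max_left _ _) hn)
  have a2 := hN2 n (le_trans (le_max_right _ _) hn)
  -- the main estimate
  have hmain : ‖(∑ γ ∈ s n, (w n γ : ℂ) * Complex.exp (((t * f n γ : ℝ) : ℂ) * I)) -
      ∑ m ∈ Finset.range (2 * K), ((t : ℂ) * I) ^ m / (m.factorial : ℂ) *
      ((∑ γ ∈ s n, w n γ * f n γ ^ m : ℝ) : ℂ)‖ ≤
      t ^ (2 * K) / ((2 * K).factorial : ℝ) * (∑ γ ∈ s n, w n γ * f n γ ^ (2 * K)) := by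
    have h1 : (∑ m ∈ Finset.range (2 * K), ((t : ℂ) * I) ^ m / (m.factorial : ℂ) *
        ((∑ γ ∈ s n, w n γ * f n γ ^ m : ℝ) : ℂ)) =
        ∑ γ ∈ s n, (w n γ : ℂ) * tp (2 * K) (t * f n γ) := by
      unfold tp
      simp only [Finset.mul_sum, Complex.ofReal_sum]
      rw [Finset.sum_comm]
      refine Finset.sum_congr rfl fun γ _ => Finset.sum_congr rfl fun m _ => ?_
      push_cast
      rw [show ((t : ℂ) * (f n γ : ℂ) * I) = ((t : ℂ) * I) * (f n γ : ℂ) by ring, mul_pow]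
      ring
    rw [h1, ← Finset.sum_sub_distrib, Finset.mul_sum]
    refine (norm_sum_le _ _).trans (Finset.sum_le_sum fun γ _ => ?_)
    rw [← mul_sub, norm_mul, Complex.norm_real, Real.norm_of_nonneg (hw n γ)]
    have h2 := bound (2 * K) (t * f n γ)
    have h3 : |t * f n γ| ^ (2 * K) = t ^ (2 * K) * f n γ ^ (2 * K) := by
      rw [pow_mul, sq_abs, ← pow_mul, mul_pow]
    rw [h3] at h2
    calc w n γ * ‖Complex.exp (((t * f n γ : ℝ) : ℂ) * I) - tp (2 * K) (t * f n γ)‖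
        ≤ w n γ * (t ^ (2 * K) * f n γ ^ (2 * K) / ((2 * K).factorial : ℝ)) :=
          mul_le_mul_of_nonneg_left h2 (hw n γ)
      _ = _ := by ring
  rw [dist_eq_norm] at a1 e2 ⊢
  have b1 := norm_sub_le_norm_sub_add_norm_sub
    (∑ γ ∈ s n, (w n γ : ℂ) * Complex.exp (((t * f n γ : ℝ) : ℂ) * I))
    (∑ m ∈ Finset.range (2 * K), ((t : ℂ) * I) ^ m / (m.factorial : ℂ) *
      ((∑ γ ∈ s n, w n γ * f n γ ^ m : ℝ) : ℂ))
    (Complex.exp (((-(t ^ 2 / 2) : ℝ) : ℂ)))
  have b2 := norm_sub_le_norm_sub_add_norm_sub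
    (∑ m ∈ Finset.range (2 * K), ((t : ℂ) * I) ^ m / (m.factorial : ℂ) *
      ((∑ γ ∈ s n, w n γ * f n γ ^ m : ℝ) : ℂ))
    (∑ j ∈ Finset.range K, (-((t : ℂ) ^ 2 / 2)) ^ j / (j.factorial : ℂ))
    (Complex.exp (((-(t ^ 2 / 2) : ℝ) : ℂ)))
  linarith

end Pool.Agent.Lib.MP_6bc78b_nt.MS.QZ.H15
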